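import Mathlib
import Pool.Agent.W313.HB.Stm4

/-!
# Project HB: part XAPP (helper538)
-/

set_option autoImplicit false
set_option linter.all false

namespace Pool.Agent.W538.HB

open Pool.Agent.W313.HB
open Rat.AbsoluteValue

/-- the places -/
noncomputable def vv (S : Finset Nat.Primes) : Option S → AbsoluteValue ℚ ℝ
  | none => Rat.AbsoluteValue.real
  | some p => haveI : Fact ((p : Nat.Primes) : ℕ).Prime := ⟨p.1.2⟩; Rat.AbsoluteValue.padic (p : Nat.Primes)

theorem padic_self (p : ℕ) [Fact p.Prime] : padic p (p : ℚ) < 1 := by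
  rw [padic_eq_padicNorm]
  have h := padicNorm.padicNorm_p_lt_one_of_prime (p := p)
  exact_mod_cast h

theorem padic_other (p q : ℕ) [Fact p.Prime] [Fact q.Prime] (h : p ≠ q) :
    padic p (q : ℚ) = 1 := by
  rw [padic_eq_padicNorm]
  have := padicNorm.padicNorm_of_prime_of_ne (p := p) (q := q) h
  exact_mod_cast this

theorem vv_nontrivial (S : Finset Nat.Primes) (i : Option S) : (vv S i).IsNontrivial := by
  rcases i with _ | p
  · refine ⟨2, by norm_num, ?_⟩
    show (Rat.AbsoluteValue.real (2 : ℚ)) ≠ 1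
    rw [real_eq_abs]
    norm_num
  · haveI : Fact ((p : Nat.Primes) : ℕ).Prime := ⟨p.1.2⟩
    refine ⟨((p : Nat.Primes) : ℕ), ?_, ?_⟩
    · exact_mod_cast p.1.2.ne_zero
    · show padic (p : Nat.Primes) (((p : Nat.Primes) : ℕ) : ℚ) ≠ 1
      exact (padic_self _).ne

theorem vv_ne (S : Finset Nat.Primes) : Pairwise fun i j => ¬ (vv S i).IsEquiv (vv S j) := by
  intro i j hij h
  rcases i with _ | p <;> rcases j with _ | q
  · exact hij rfl
  · haveI : Fact ((q : Nat.Primes) : ℕ).Prime := ⟨q.1.2⟩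
    exact not_real_isEquiv_padic _ h
  · haveI : Fact ((p : Nat.Primes) : ℕ).Prime := ⟨p.1.2⟩
    exact not_real_isEquiv_padic _ h.symm
  · haveI : Fact ((p : Nat.Primes) : ℕ).Prime := ⟨p.1.2⟩
    haveI : Fact ((q : Nat.Primes) : ℕ).Prime := ⟨q.1.2⟩
    have hpq : ((p : Nat.Primes) : ℕ) ≠ ((q : Nat.Primes) : ℕ) := by
      intro h'
      apply hij
      congr 1
      exact Subtype.ext (Subtype.ext h')
    have h1 : (vv S (some p)) (((p : Nat.Primes) : ℕ) : ℚ) < 1 := padic_self _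
    have h2 : (vv S (some q)) (((p : Nat.Primes) : ℕ) : ℚ) = 1 := padic_other _ _ hpq.symm
    have h3 := h.lt_one_iff.1 h1
    linarith

/-- one coordinate -/
theorem coord (S : Finset Nat.Primes) (y : ℝ) (yp : ∀ p : Nat.Primes, ℚ_[(p : ℕ)]) (ε : ℝ)
    (hε : 0 < ε) : ∃ x : ℚ, |(x : ℝ) - y| < ε ∧ ∀ p ∈ S, ‖(x : ℚ_[(p : ℕ)]) - yp p‖ < ε := by
  classical
  obtain ⟨z0, hz0⟩ : ∃ z : ℚ, |(z : ℝ) - y| < ε / 2 := by
    obtain ⟨z, h1, h2⟩ := exists_rat_btwn (show y < y + ε / 2 by linarith)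
    refine ⟨z, ?_⟩
    rw [abs_lt]
    constructor <;> linarith
  have hz : ∀ p : Nat.Primes, ∃ z : ℚ, ‖yp p - (z : ℚ_[(p : ℕ)])‖ < ε / 2 := fun p =>
    Padic.rat_dense (p : ℕ) (yp p) (half_pos hε)
  choose zp hzp using hz
  let z : Option S → ℚ := fun i => match i with
    | none => z0
    | some p => zp p
  have hd := AbsoluteValue.denseRange_algebraMap_pi (vv_nontrivial S) (vv_ne S)
  obtain ⟨x, hx⟩ := Metric.denseRange_iff.mp hd (fun i => WithAbs.toAbs (vv S i) (z i)) (ε / 2)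
    (half_pos hε)
  rw [dist_pi_lt_iff (half_pos hε)] at hx
  have hx' : ∀ i, (vv S i) (z i - x) < ε / 2 := by
    intro i
    have h1 := hx i
    rw [dist_eq_norm] at h1
    exact h1
  refine ⟨x, ?_, ?_⟩
  · have h1 : |((z0 - x : ℚ) : ℝ)| < ε / 2 := by
      have h2 : Rat.AbsoluteValue.real (z0 - x) < ε / 2 := hx' none
      rw [real_eq_abs] at h2
      exact_mod_cast h2
    push_cast at h1
    have : |(x : ℝ) - y| ≤ |(z0 : ℝ) - x| + |(z0 : ℝ) - y| := by
      have e : (x : ℝ) - y = -((z0 : ℝ) - x) + ((z0 : ℝ) - y) := by ring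
      rw [e]
      refine (abs_add_le _ _).trans ?_
      rw [abs_neg]
    linarith
  · intro p hp
    have h1 : ‖((zp p - x : ℚ) : ℚ_[(p : ℕ)])‖ < ε / 2 := by
      have h2 := hx' (some ⟨p, hp⟩)
      rw [Padic.eq_padicNorm]
      exact h2
    push_cast at h1
    have h3 : ‖(x : ℚ_[(p : ℕ)]) - yp p‖ ≤ ‖(zp p : ℚ_[(p : ℕ)]) - x‖ +
        ‖yp p - (zp p : ℚ_[(p : ℕ)])‖ := by
      have e : (x : ℚ_[(p : ℕ)]) - yp p = -((zp p : ℚ_[(p : ℕ)]) - x) +
          -(yp p - (zp p : ℚ_[(p : ℕ)])) := by ring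
      rw [e]
      refine (norm_add_le _ _).trans ?_
      rw [norm_neg, norm_neg]
    have := hzp p
    linarith

theorem xapp_ : S_XAPP := by
  intro n G hG Ωr Ω hr hΩ hfin hne hnep
  classical
  -- a point where the polynomial does not vanish
  have hmap : MvPolynomial.map (Int.castRingHom ℝ) G ≠ 0 := by
    intro h
    apply hG
    apply MvPolynomial.map_injective (Int.castRingHom ℝ) Int.cast_injective
    rw [h, map_zero]
  have hpt : ∃ y ∈ Ωr, MvPolynomial.aeval y G ≠ 0 := by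
    obtain ⟨y0, hy0⟩ := hne
    obtain ⟨δ, hδ, hball⟩ := Metric.isOpen_iff.1 hr y0 hy0
    by_contra hcon
    push Not at hcon
    apply hmap
    refine MvPolynomial.funext_set (fun i => Set.Ioo (y0 i - δ) (y0 i + δ)) (fun i => ?_) ?_
    · exact Set.Ioo_infinite (by linarith)
    · intro x hx
      rw [map_zero]
      have h1 : x ∈ Ωr := by
        apply hball
        rw [Metric.mem_ball, dist_pi_lt_iff hδ]
        intro i
        have h2 := hx i (Set.mem_univ i)
        rw [Real.dist_eq, abs_lt]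
        constructor <;> linarith [h2.1, h2.2]
      have h3 := hcon x h1
      rw [MvPolynomial.eval_map]
      exact h3
  obtain ⟨y, hy, hyG⟩ := hpt
  have hopen : IsOpen (Ωr ∩ {x : Fin (n + 1) → ℝ | MvPolynomial.aeval x G ≠ 0}) := by
    refine hr.inter ?_
    have hc : Continuous fun x : Fin (n + 1) → ℝ => MvPolynomial.aeval x G := by
      have : (fun x : Fin (n + 1) → ℝ => MvPolynomial.aeval x G) =
          fun x => MvPolynomial.eval x (MvPolynomial.map (Int.castRingHom ℝ) G) := by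
        funext x
        rw [MvPolynomial.eval_map]
        rfl
      rw [this]
      exact MvPolynomial.continuous_eval _
    exact isOpen_ne_fun hc continuous_const
  obtain ⟨δ, hδ, hball⟩ := Metric.isOpen_iff.1 hopen y ⟨hy, hyG⟩
  choose yp hyp using hnep
  have hb : ∀ p : Nat.Primes, ∃ δ : ℝ, 0 < δ ∧ Metric.ball (yp p) δ ⊆ Ω p := fun p => by
    obtain ⟨δ, h1, h2⟩ := Metric.isOpen_iff.1 (hΩ p) (yp p) (hyp p)
    exact ⟨δ, h1, h2⟩
  choose dp hdp hdpb using hb
  obtain ⟨ε, hε, hεδ, hεp⟩ : ∃ ε : ℝ, 0 < ε ∧ ε ≤ δ ∧ ∀ p ∈ hfin.toFinset, ε ≤ dp p := by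
    have : ∀ T : Finset Nat.Primes, ∃ ε : ℝ, 0 < ε ∧ ε ≤ δ ∧ ∀ p ∈ T, ε ≤ dp p := by
      intro T
      induction T using Finset.induction_on with
      | empty => exact ⟨δ, hδ, le_rfl, by simp⟩
      | insert q T hq ih =>
        obtain ⟨ε, h1, h2, h3⟩ := ih
        refine ⟨min ε (dp q), lt_min h1 (hdp q), (min_le_left _ _).trans h2, ?_⟩
        intro p hp
        rcases Finset.mem_insert.1 hp with rfl | hp
        · exact min_le_right _ _
        · exact (min_le_left _ _).trans (h3 p hp)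
    exact this _
  have hco := fun i : Fin (n + 1) => coord hfin.toFinset (y i) (fun p => yp p i) ε hε
  choose x hx hxp using hco
  have hxr : (fun i => (x i : ℝ)) ∈ Ωr ∩ {x : Fin (n + 1) → ℝ | MvPolynomial.aeval x G ≠ 0} := by
    apply hball
    rw [Metric.mem_ball, dist_pi_lt_iff hδ]
    intro i
    rw [Real.dist_eq]
    exact lt_of_lt_of_le (hx i) hεδ
  refine ⟨x, hxr.1, ?_, ?_⟩
  · intro p
    by_cases hp : Ω p = Set.univ
    · rw [hp]
      exact Set.mem_univ _
    · have hpS : p ∈ hfin.toFinset := by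
        rw [Set.Finite.mem_toFinset]
        exact hp
      apply hdpb p
      rw [Metric.mem_ball, dist_pi_lt_iff (hdp p)]
      intro i
      rw [dist_eq_norm]
      exact lt_of_lt_of_le (hxp i p hpS) (hεp p hpS)
  · intro h
    apply hxr.2
    have e : MvPolynomial.aeval (fun i => (x i : ℝ)) G = ((MvPolynomial.aeval x G : ℚ) : ℝ) := by
      have h1 := MvPolynomial.aeval_algebraMap_apply (A := ℚ) ℝ x G
      exact h1
    rw [e, h]
    simp

end Pool.Agent.W538.HB
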